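import Pool.Agent.Helper10.GO.GoalsP

/-!
# Project GO (MP_6af536_nt), packet AIP: algebraically independent p-adic integers with given residues
-/

set_option autoImplicit false

namespace Pool.Agent.Helper88.GO

open Pool.Agent.Helper10.GO

/-- every residue ball of `ℤ_[p]` meets the complement of every countable set -/
theorem exists_notMem_of_countable (p : ℕ) [Fact p.Prime] (a : ℤ_[p]) (S : Set ℤ_[p])
    (hS : S.Countable) : ∃ t : ℤ_[p], t ∉ S ∧ (p : ℤ_[p]) ∣ t - a := by
  have hd : Dense ((Subtype.val '' S : Set ℚ_[p])ᶜ) :=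
    Set.Countable.dense_compl ℚ_[p] (hS.image _)
  obtain ⟨x, hx1, hx2⟩ := hd.exists_mem_open (Metric.isOpen_ball (x := (a : ℚ_[p])) (ε := 1))
    ⟨_, Metric.mem_ball_self one_pos⟩
  have h1 : ‖x - (a : ℚ_[p])‖ < 1 := by
    have := Metric.mem_ball.1 hx2
    rwa [dist_eq_norm] at this
  have hx : ‖x‖ ≤ 1 := by
    have h2 : x = (x - (a : ℚ_[p])) + (a : ℚ_[p]) := by ring
    rw [h2]
    refine (Padic.nonarchimedean _ _).trans (max_le h1.le ?_)
    exact PadicInt.norm_le_one a
  refine ⟨⟨x, hx⟩, fun h => hx1 ⟨_, h, rfl⟩, ?_⟩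
  rw [← PadicInt.norm_lt_one_iff_dvd]
  exact h1

theorem aip : S_AIP := by
  intro p _ r
  induction r with
  | zero =>
    intro a
    refine ⟨fun i => i.elim0, ?_, fun i => i.elim0⟩
    rw [algebraicIndependent_empty_type_iff]
    exact (algebraMap ℤ ℤ_[p]).injective_int
  | succ r ih =>
    intro a
    obtain ⟨t, ht, ht2⟩ := ih (fun i => a i.succ)
    have hc : Countable (Algebra.adjoin ℤ (Set.range t)) := by
      have h1 : ((Algebra.adjoin ℤ (Set.range t) : Subalgebra ℤ ℤ_[p]) : Set ℤ_[p]).Countable := by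
        have h0 : Countable (MvPolynomial (Fin r) ℤ) := by
          rw [← Cardinal.mk_le_aleph0_iff]
          refine MvPolynomial.cardinalMk_le_max.trans ?_
          simp
        rw [Algebra.adjoin_range_eq_range_aeval]
        exact Set.countable_range _
      exact h1.to_subtype
    obtain ⟨s, hs1, hs2⟩ := exists_notMem_of_countable p (a 0 : ℤ_[p])
      {x | IsAlgebraic (Algebra.adjoin ℤ (Set.range t)) x} (Algebraic.countable _ _)
    have h3 := (ht.option_iff_transcendental s).2 hs1
    refine ⟨Fin.cons s t, ?_, ?_⟩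
    · rw [← algebraicIndependent_equiv' (finSuccEquiv r) (f := fun o : Option (Fin r) => o.elim s t)] at h3
      exact h3
      funext i
      refine Fin.cases ?_ (fun j => ?_) i
      · simp
      · simp
    · intro i
      refine Fin.cases ?_ (fun j => ?_) i
      · simpa using hs2
      · simpa using ht2 j

end Pool.Agent.Helper88.GO
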